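import Pool.Agent.H19.A2.Exq2
import Pool.Agent.H19.A2.Bet2
import Pool.Agent.H19.A2.Grp2
import Pool.Agent.H19.ST.Mnc

/-!
# [H4 A2 MNT] tools for the main case of the step theorem of AP2 (H19/A2/Mnc2)

* `ev2_fam`, `ev2_add`: families of values at `F_u` as `Ev2`.
* `b1_x`: `B1` for the state `(b, w' ∘ π)` over `T ∪ {u}`, label `t` at `u`, as a sum over the lifts; `b1_af`: with the coefficients `Af`. `b1_be`: `B1` for the state of `β` on `H`.
* `key_be2`: the sum over the labels of the coefficients of `-β ∘ φ'` is the term of `B1` for the state of `β`.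
* `hs2_lam`, `hs2_nbh`: membership.
-/

set_option autoImplicit false
set_option linter.dupNamespace false

open scoped NumberField ComplexConjugate
open IsDedekindDomain
open scoped Classical

noncomputable section

namespace H4.A2

open H63.MA H38.BB H38.BG H57.PC H57.BRA H57.GP H77.PC3 H77.WD Pool.Agent.H19.NF
  Pool.Agent.H19.AB H86.AP H4.AP H77.WE H24.RK Pool.Agent.H19.ST Pool.Agent.H19.A2

section ev

variable {K : Type} [Field K] [NumberField K] {Ω : Type} [Field Ω] [Algebra K Ω]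
  {p : ℕ} {ζ : K}

theorem ev2_fam {D : RD0 K p ζ} (L : LDs D Ω) (Fr : FR L) {H' : Type} [Group H'] (F : H' → ℂ)
    (T : Finset (Pl K)) {ι : Type} (J : Finset ι) (Θ : ι → Gal(Ω/K) →* H') (A : ι → ℂ)
    (hΘ : ∀ i ∈ J, Θ i ∈ HS2 L H' T) (u : Pl K) :
    ∑ i ∈ J, A i * F (Θ i (Fr.F u)) =
      Ev2 L Fr H' F T (fun Θ' => ∑ i ∈ J, if Θ' = Θ i then A i else 0) u := by
  unfold Ev2
  have e : ∀ Θ' ∈ HS2 L H' T, (∑ i ∈ J, if Θ' = Θ i then A i else 0) * F (Θ' (Fr.F u)) =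
      ∑ i ∈ J, if Θ' = Θ i then A i * F (Θ i (Fr.F u)) else 0 := by
    intro Θ' _
    rw [Finset.sum_mul]
    refine Finset.sum_congr rfl fun i _ => ?_
    split_ifs with h
    · rw [h]
    · rw [zero_mul]
  rw [Finset.sum_congr rfl e, Finset.sum_comm]
  refine (Finset.sum_congr rfl fun i hi => ?_).symm
  rw [Finset.sum_ite_eq' (HS2 L H' T) (Θ i) fun _ => A i * F (Θ i (Fr.F u)), if_pos (hΘ i hi)]

theorem ev2_add {D : RD0 K p ζ} (L : LDs D Ω) (Fr : FR L) {H' : Type} [Group H'] (F : H' → ℂ)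
    (T : Finset (Pl K)) (f g : (Gal(Ω/K) →* H') → ℂ) (u : Pl K) :
    Ev2 L Fr H' F T (fun Θ => f Θ + g Θ) u = Ev2 L Fr H' F T f u + Ev2 L Fr H' F T g u := by
  unfold Ev2
  rw [← Finset.sum_add_distrib]
  exact Finset.sum_congr rfl fun Θ _ => by ring

end ev

variable {K : Type} [Field K] [NumberField K] {Ω : Type} [Field Ω] [Algebra K Ω]
  [IsAlgClosure K Ω] {p m k : ℕ} {ζ : K} {P G H Qg : Type} [Group P] [Fintype P] [Group G]
  [Group H] [Group Qg]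

theorem b1_x [NeZero p] [NeZero (p ^ m)] [Finite G] (E : CE p G H) (hk : 0 < k) (hp : p.Prime)
    (hp2 : MOne p K) (hζ : IsPrimitiveRoot ζ p) (hz : Zn p (k + 1) K) (D : RD0 K p ζ)
    (L : LDs D Ω) (Q : DP K Ω) (Fr : FR L)
    (I : ((Gal(Ω/K) → Gal(Ω/K) → Gal(Ω/K) → ZMod (p ^ m)) ×
      (Pl K → Gal(Ω/K) → Gal(Ω/K) → ZMod (p ^ m))) →+ AddCircle (1 : ℝ))
    (hG : ∀ x : G, x ^ p ^ k = 1) {rG : G →* Qg} {rH : H →* Qg} (hr : rH.comp E.pi = rG)
    (wt : (Gal(Ω/K) →* Qg) → ℂ) (q : P →* G) {τ : Pl K → Gal(Ω/K) →* P}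
    (h₁ : ∀ v, H38.ML.FT (τ v)) {t : P} (hj : q t = E.i 1) (hq : Function.Surjective q)
    {b : P → P → ZMod (p ^ m)} {w' : H → H → H → ZMod (p ^ m)}
    (hb : ∀ x y z, d2 b x y z = w' (E.pi (q x)) (E.pi (q y)) (E.pi (q z))) (hw : Nr3 w')
    (T : Finset (Pl K)) (hT : ∀ v ∈ T, v ∉ D.S0) :
    ∃ (cR : (Gal(Ω/K) →* H) → (T → ZMod p) → Fin D.r → ZMod p)
      (ρR : (Gal(Ω/K) →* H) → (T → ZMod p) → (Gal(Ω/K) →* G)),
      (∀ φ' ∈ XS2 L Q (fun v => E.pi.comp (q.comp (τ v))) T, Lc E L Fr T φ' → ∀ a,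
        LR2 E L Q (fun v => q.comp (τ v)) φ' (sv E L φ' T a) (cR φ' a) (ρR φ' a)) ∧
      ∀ (γ : Pl K → P) (u : Pl K), D.Gd u → u ∉ T →
        B1 L Q Fr I rG wt τ q b (fun x y z => w' (E.pi x) (E.pi y) (E.pi z)) (insert u T)
            (Function.update γ u t) =
          ∑ φ' ∈ XS2 L Q (fun v => E.pi.comp (q.comp (τ v))) T, ∑ a : T → ZMod p,
            if Lc E L Fr T φ' then
              wt (rH.comp φ') * ec (JR D Q I b w' τ φ') * (_root_.H4.AP.V2 E q b t (φ' (Fr.F u)) *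
                (if D.q u = cR φ' a then ∏ v ∈ T, gw2 E q b L γ φ' T a v
                  (tw E (ρR φ' a) (kc p ζ Ω (D.pi u)) (Fr.F v)) else 0)) else 0 := by
  obtain ⟨cR, ρR, hLR, hX⟩ := exq2 E hk hp hp2 hζ hz D L Q Fr I hG hr wt q h₁ hj hq
    (w := fun x y z => w' (E.pi x) (E.pi y) (E.pi z)) (κ := w') (ν := fun _ _ => 0)
    (θ := (0 : ZMod p →+ ZMod (p ^ m))) hb (fun x y z => by simp) hw
    ⟨fun _ => rfl, fun _ => rfl⟩ T hT
  refine ⟨cR, ρR, hLR, fun γ u hu huT => ?_⟩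
  rw [hX γ u hu huT]
  refine Finset.sum_congr rfl fun φ' hφ' => Finset.sum_congr rfl fun a _ => ?_
  by_cases hL : Lc E L Fr T φ'
  · rw [if_pos hL]
    by_cases hc : D.q u = cR φ' a
    · rw [if_pos ⟨hL, hc⟩, if_pos hc]
      have e1 : JR D Q I b (fun x y z => w' (E.pi x) (E.pi y) (E.pi z)) τ
          (tw E (ρR φ' a) (kc p ζ Ω (D.pi u))) = JR D Q I b w' τ φ' := by
        rw [jr_inf, lr2_pi E (hLR φ' hφ' hL a)]
      have e0 : Pool.Agent.H19.ST.V2 E q b t (φ' (Fr.F u)) =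
          _root_.H4.AP.V2 E q b t (φ' (Fr.F u)) := rfl
      rw [e1, e0]
      ring
    · rw [if_neg (fun h => hc h.2), if_neg hc, mul_zero, mul_zero]
  · rw [if_neg hL, if_neg fun h => hL h.1]

/-- with the coefficients `Af` -/
theorem b1_af [NeZero p] [NeZero (p ^ m)] (E : CE p G H) (hp : p.Prime) (hp2 : MOne p K)
    (hζ : IsPrimitiveRoot ζ p) (D : RD K p ζ) (L : LDs D.toRD0 Ω) (Q : DP K Ω)
    (Fr : FR L) (Xi : (Fin D.r → ZMod p) → (Gal(Ω/K) →* Multiplicative (ZMod p)))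
    (hXi : ∀ κ w, D.Gd w → Multiplicative.toAdd (Xi κ (Fr.F w)) = ∑ i, κ i * D.q w i)
    (q : P →* G) (b : P → P → ZMod (p ^ m)) (g : Pl K → G → ℂ) (t : P)
    (T : Finset (Pl K)) (hT : ∀ v ∈ T, v ∉ D.S0) (φ' : Gal(Ω/K) →* H)
    (c : Fin D.r → ZMod p) (ρ : Gal(Ω/K) →* G) {u : Pl K} (hu : D.Gd u) :
    _root_.H4.AP.V2 E q b t (φ' (Fr.F u)) * (if D.q u = c then ∏ v ∈ T, g v
      (tw E ρ (kc p ζ Ω (D.pi u)) (Fr.F v)) else 0) =
      ∑ k : T → ZMod p, ∑ κ : Fin D.r → ZMod p,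
        Af D (ch p) E Fr c ρ g T k κ *
          F2 E q b t (φ'.prod (Lam D Xi T k κ) (Fr.F u)) := by
  have hψ : (ch p).IsPrimitive :=
    AddChar.zmod_char_primitive_of_eq_one_only_at_zero p _ fun _ h => ch_inj p h
  rw [mf D Xi hp hp2 hζ hψ E Q Fr hXi c ρ g T hT hu, Finset.mul_sum]
  refine Finset.sum_congr rfl fun k _ => ?_
  rw [Finset.mul_sum]
  refine Finset.sum_congr rfl fun κ _ => ?_
  show _ = _ * (_root_.H4.AP.V2 E q b t (φ' (Fr.F u)) * ch p (Multiplicative.toAdd (Lam D Xi T k κ (Fr.F u))))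
  ring

/-- the state of `β` -/
theorem b1_be [NeZero p] [NeZero (p ^ m)] [Fintype G] (E : CE p G H) (hp : p.Prime) (hm : 1 ≤ m)
    (hζ : IsPrimitiveRoot ζ p) (D : RD0 K p ζ) (L : LDs D Ω) (Q : DP K Ω)
    (Fr : FR L)
    (I : ((Gal(Ω/K) → Gal(Ω/K) → Gal(Ω/K) → ZMod (p ^ m)) ×
      (Pl K → Gal(Ω/K) → Gal(Ω/K) → ZMod (p ^ m))) →+ AddCircle (1 : ℝ))
    (hG : ∀ x : G, x ^ p ^ k = 1) (t : P) (rH : H →* Qg) (wt : (Gal(Ω/K) →* Qg) → ℂ)
    (τ : Pl K → Gal(Ω/K) →* P) (q : P →* G) (hq : Function.Surjective q) (hj : q t = E.i 1)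
    {b : P → P → ZMod (p ^ m)} {w' : H → H → H → ZMod (p ^ m)}
    (hb : ∀ x y z, d2 b x y z = w' (E.pi (q x)) (E.pi (q y)) (E.pi (q z))) (hw : Nr3 w')
    {β : H → ZMod p} (hβ : ∀ x y, β (x * y) = β x + β y)
    (T : Finset (Pl K)) (γ : Pl K → P) {u : Pl K} (hu : D.Gd u) (huT : u ∉ T) :
    B1 L Q Fr I rH wt τ (E.pi.comp q) (fun x y => b x y - be (tz p m) E β (q x) (q y))
        (fun x y z => w' x y z + tz p m (β x * E.ee y z)) (insert u T) (Function.update γ u t) =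
      ∑ φ' ∈ XS2 L Q (fun v => E.pi.comp (q.comp (τ v))) T,
        (wt (rH.comp φ') *
          (ec (JR D Q I (fun x y => b x y - be (tz p m) E β (q x) (q y))
            (fun x y z => w' x y z + tz p m (β x * E.ee y z)) τ φ') *
        ∏ v ∈ T, Vg (E.pi.comp q)
          (fun x y => b x y - be (tz p m) E β (q x) (q y)) (γ v)
            (φ' (L.t v)) (φ' (Fr.F v)))) *
          F2 E q b t (φ'.prod (nbh β φ') (Fr.F u)) := by
  have hFH : Finite H := fin_H E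
  have hH : ∀ x : H, x ^ p ^ k = 1 := pow_surj (fun h => ⟨E.s h, E.pi_s h⟩) hG
  unfold B1
  show ∑ φ ∈ XS2 L Q (fun v => E.pi.comp (q.comp (τ v))) (insert u T), _ = _
  rw [xs2_triv hp hζ L Q hH (fun v => E.pi.comp (q.comp (τ v))) T (u := u)]
  · refine Finset.sum_congr rfl fun φ' hφ' => ?_
    have hφ : Unz L T φ' := ((mem_xs2 hp hζ L Q hH _ T φ').1 hφ').1
    have e1 : φ' (L.t u) = 1 := hφ.2 u hu.1 huT
    have e2 : Vg (E.pi.comp q) (fun x y => b x y - be (tz p m) E β (q x) (q y)) t 1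
        (φ' (Fr.F u)) = F2 E q b t (φ'.prod (nbh β φ') (Fr.F u)) := by
      have h := vb_proj0 q hq E (w := fun x y z => w' (E.pi x) (E.pi y) (E.pi z)) hb hw
        (fun _ _ _ => rfl) (tz p m) β hβ hj (E.s (φ' (Fr.F u)))
      rw [E.pi_s] at h
      have h3 : Vg (E.pi.comp q) (fun x y => b x y - be (tz p m) E β (q x) (q y)) t 1
          (φ' (Fr.F u)) = _root_.H4.AP.V2 E q b t (φ' (Fr.F u)) * ch (p ^ m) (-tz p m (β (φ' (Fr.F u)))) := h
      rw [h3, ← map_neg, _root_.H4.AP.ch_tz hp hm, ← nbh_apply hβ φ' (Fr.F u)]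
      rfl
    rw [Finset.prod_insert huT, Function.update_self, e1, e2]
    have e3 : ∏ v ∈ T, Vg (E.pi.comp q)
          (fun x y => b x y - be (tz p m) E β (q x) (q y))
            (Function.update γ u t v) (φ' (L.t v)) (φ' (Fr.F v)) =
        ∏ v ∈ T, Vg (E.pi.comp q)
          (fun x y => b x y - be (tz p m) E β (q x) (q y)) (γ v)
            (φ' (L.t v)) (φ' (Fr.F v)) := by
      refine Finset.prod_congr rfl fun v hv => ?_
      have hvu : v ≠ u := fun h => huT (h ▸ hv)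
      rw [Function.update_of_ne hvu]
    rw [e3]
    ring
  · intro φ hφ hX
    have h2 : Vg (E.pi.comp q) (fun x y =>
        b x y - be (tz p m) E β (q x) (q y)) (Function.update γ u t u) (φ (L.t u))
        (φ (Fr.F u)) ≠ 0 :=
      Finset.prod_ne_zero_iff.1 (right_ne_zero_of_mul (right_ne_zero_of_mul hX)) u
        (Finset.mem_insert_self u T)
    rw [Function.update_self] at h2
    refine vb_j0 (E.pi.comp q) (fun g => by rw [one_mul, mul_one]) ?_ h2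
    rw [MonoidHom.comp_apply, hj, E.pi_i]

theorem key_be2 [NeZero p] [NeZero (p ^ m)] [Fintype G] (E : CE p G H) (hp : p.Prime)
    (hm : 1 ≤ m) (hp2 : MOne p K) (hζ : IsPrimitiveRoot ζ p) (D : RD K p ζ)
    (hl1 : ∀ v, v ∉ D.S0 → D.lam v = 1)
    (L : LDs D.toRD0 Ω) (Q : DP K Ω) (Fr : FR L)
    (Xi : (Fin D.r → ZMod p) → (Gal(Ω/K) →* Multiplicative (ZMod p)))
    (hXt : ∀ κ v, v ∉ D.S0 → Xi κ (L.t v) = 1)
    (hXi : ∀ κ w, D.Gd w → Multiplicative.toAdd (Xi κ (Fr.F w)) = ∑ i, κ i * D.q w i)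
    (I : ((Gal(Ω/K) → Gal(Ω/K) → Gal(Ω/K) → ZMod (p ^ m)) ×
      (Pl K → Gal(Ω/K) → Gal(Ω/K) → ZMod (p ^ m))) →+ AddCircle (1 : ℝ))
    (hI : FnR p k m D.toRD0 L Q Fr I) (hG : ∀ x : G, x ^ p ^ k = 1)
    (rH : H →* Qg) (wt : (Gal(Ω/K) →* Qg) → ℂ)
    (τ : Pl K → Gal(Ω/K) →* P) (q : P →* G) (hq : Function.Surjective q)
    (b : P → P → ZMod (p ^ m)) (w' : H → H → H → ZMod (p ^ m)) (γ : Pl K → P)
    {T : Finset (Pl K)} (hT : ∀ v ∈ T, v ∉ D.S0) {φ' : Gal(Ω/K) →* H}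
    (cf' : (T → ZMod p) → Fin D.r → ZMod p) (ρf : (T → ZMod p) → (Gal(Ω/K) →* G))
    (hR : Lc E L Fr T φ' → ∀ a,
      LR2 E L Q (fun v => q.comp (τ v)) φ' (sv E L φ' T a) (cf' a) (ρf a))
    {β : H → ZMod p} (hβ : ∀ x y, β (x * y) = β x + β y) {k' : T → ZMod p}
    {κ : Fin D.r → ZMod p}
    (hL : ∀ σ, Multiplicative.toAdd (Lam D Xi T k' κ σ) = -β (φ' σ)) :
    (∑ a : T → ZMod p, if Lc E L Fr T φ' then
        wt (rH.comp φ') * ec (JR D.toRD0 Q I b w' τ φ') *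
        Af D (ch p) E Fr (cf' a) (ρf a) (gw2 E q b L γ φ' T a) T k' κ else 0) =
      ((p : ℂ) ^ D.r)⁻¹ * (wt (rH.comp φ') *
          (ec (JR D.toRD0 Q I (fun x y => b x y - be (tz p m) E β (q x) (q y))
            (fun x y z => w' x y z + tz p m (β x * E.ee y z)) τ φ') *
        ∏ v ∈ T, Vg (E.pi.comp q)
          (fun x y => b x y - be (tz p m) E β (q x) (q y)) (γ v)
            (φ' (L.t v)) (φ' (Fr.F v)))) := by
  have hF1 : Fact (1 < p) := ⟨hp.one_lt⟩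
  by_cases hLc : Lc E L Fr T φ'
  · -- the factors
    let hv : T → ZMod p → ℂ := fun v a0 => (p : ℂ)⁻¹ * ∑ a' : ZMod p,
      Vg q b (γ v.1) (E.i a0 * E.s (φ' (L.t v.1)))
        (E.i a' * E.s (φ' (Fr.F v.1))) *
        ch p (bb E β (E.i a0 * E.s (φ' (L.t v.1))) (E.i a' * E.s (φ' (Fr.F v.1))))
    have e1 : ∀ a : T → ZMod p, Af D (ch p) E Fr (cf' a) (ρf a) (gw2 E q b L γ φ' T a) T k' κ =
        ((p : ℂ) ^ D.r)⁻¹ *
        ec (-JR D.toRD0 Q I (fun x y => be (tz p m) E β (q x) (q y))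
          (fun x y z => -tz p m (β x * E.ee y z)) τ φ') *
        ∏ v : T, hv v (a v) := by
      intro a
      have hRa := hR hLc a
      rw [bet2 E hp hp2 hζ hl1 Xi hXt hXi hI hG q hRa hT
        (fun v _ hvT => dif_neg hvT) (tz_ch hp hm) (gw2 E q b L γ φ' T a) hβ hL,
        ← Finset.prod_coe_sort T]
      refine congrArg (HMul.hMul _) ?_
      refine Finset.prod_congr rfl fun v _ => ?_
      show _ = hv v (a v)
      have e2 : sv E L φ' T a v.1 = E.i (a v) * E.s (φ' (L.t v.1)) := dif_pos v.2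
      have e3 : E.pi (ρf a (Fr.F v.1)) = φ' (Fr.F v.1) := DFunLike.congr_fun hRa.pi (Fr.F v.1)
      rw [sum_base E (fun x => gw2 E q b L γ φ' T a v.1 x *
        ch p (bb E β (sv E L φ' T a v.1) x)) (ρf a (Fr.F v.1)), e3]
      unfold gw2
      rw [e2]
    have e4 : ∑ a : T → ZMod p, ∏ v : T, hv v (a v) = ∏ v ∈ T, Vg (E.pi.comp q)
          (fun x y => b x y - be (tz p m) E β (q x) (q y)) (γ v)
            (φ' (L.t v)) (φ' (Fr.F v)) := by
      rw [← Finset.prod_coe_sort T]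
      have e5 : ∀ v : T, Vg (E.pi.comp q)
          (fun x y => b x y - be (tz p m) E β (q x) (q y)) (γ v.1)
            (φ' (L.t v.1)) (φ' (Fr.F v.1)) = ∑ a0 : ZMod p, hv v a0 := fun v => by
        have h := sum_lab hp hm E q hq b β 1 (γ v.1) (φ' (L.t v.1)) (φ' (Fr.F v.1))
        simp only [ZMod.val_one, one_smul, one_mul] at h
        exact h
      rw [Finset.prod_congr rfl fun v _ => e5 v, Finset.prod_univ_sum, Fintype.piFinset_univ]
    have e6 : ec (JR D.toRD0 Q I (fun x y => b x y - be (tz p m) E β (q x) (q y))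
            (fun x y z => w' x y z + tz p m (β x * E.ee y z)) τ φ') =
        ec (JR D.toRD0 Q I b w' τ φ') *
        ec (-JR D.toRD0 Q I (fun x y => be (tz p m) E β (q x) (q y))
          (fun x y z => -tz p m (β x * E.ee y z)) τ φ') := by
      rw [← AddChar.map_add_eq_mul, ← sub_eq_add_neg, ← jr_sub]
      congr 2
      funext x y z
      rw [sub_neg_eq_add]
    simp only [if_pos hLc, e1]
    rw [← Finset.mul_sum, ← Finset.mul_sum, e4, e6]
    ring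
  · simp only [if_neg hLc, Finset.sum_const_zero]
    have h0 : ∏ v ∈ T, Vg (E.pi.comp q)
          (fun x y => b x y - be (tz p m) E β (q x) (q y)) (γ v)
            (φ' (L.t v)) (φ' (Fr.F v)) = 0 := by
      unfold Lc at hLc
      push Not at hLc
      obtain ⟨v, hv, hne⟩ := hLc
      refine Finset.prod_eq_zero hv ?_
      by_contra h
      obtain ⟨σ, x', -, h2, h3, h4⟩ := vb_supp (E.pi.comp q) h
      apply hne
      rw [← h2, ← h3, MonoidHom.comp_apply, MonoidHom.comp_apply]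
      refine br_ee E ?_
      rw [← map_mul, h4, map_mul]
    rw [h0, mul_zero, mul_zero, mul_zero]

theorem mz_powk (hk : 0 < k) (z : Multiplicative (ZMod p)) : z ^ p ^ k = 1 := by
  obtain ⟨j, rfl⟩ : ∃ j, k = j + 1 := ⟨k - 1, by omega⟩
  rw [pow_succ', pow_mul, mz_pow, one_pow]

theorem hs2_lam [NeZero p] [Finite H] (hk : 0 < k) (hp : p.Prime) (hζ : IsPrimitiveRoot ζ p)
    (hH : ∀ x : H, x ^ p ^ k = 1) (D : RD K p ζ) (L : LDs D.toRD0 Ω)
    (Xi : (Fin D.r → ZMod p) → (Gal(Ω/K) →* Multiplicative (ZMod p)))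
    (hXf : ∀ κ, H38.ML.FT (Xi κ)) (hXt : ∀ κ v, v ∉ D.S0 → Xi κ (L.t v) = 1)
    {T : Finset (Pl K)} (hT : ∀ v ∈ T, v ∉ D.S0) {φ' : Gal(Ω/K) →* H} (hφ : Unz L T φ')
    (k' : T → ZMod p) (κ : Fin D.r → ZMod p) :
    φ'.prod (Lam D Xi T k' κ) ∈ HS2 L (H × Multiplicative (ZMod p)) T := by
  have hH' : ∀ x : H × Multiplicative (ZMod p), x ^ p ^ k = 1 := fun x =>
    Prod.ext (hH x.1) (mz_powk hk x.2)
  rw [mem_hs2 hp hζ L hH' T]
  refine ⟨ft_prod hφ.1 (lam_ft D Xi hp hζ hXf T k' κ), fun v hv hvT => ?_⟩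
  refine Prod.ext (hφ.2 v hv hvT) ?_
  apply Multiplicative.toAdd.injective
  have h := lam_t D Xi hp hζ L hXt hT k' κ hv
  rw [dif_neg hvT] at h
  exact h

omit [IsAlgClosure K Ω] in
theorem nbh_unz [Finite H] {D : RD0 K p ζ} (L : LDs D Ω) {T : Finset (Pl K)}
    {φ' : Gal(Ω/K) →* H} (hφ : Unz L T φ') {β : H → ZMod p}
    (hβ : ∀ x y, β (x * y) = β x + β y) :
    H38.ML.FT (nbh β φ') ∧ ∀ v, v ∉ D.S0 → v ∉ T → nbh β φ' (L.t v) = 1 := by
  constructor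
  · obtain ⟨F, hF, h⟩ := hφ.1
    refine ⟨F, hF, fun σ hσ => ?_⟩
    have h2 : φ' σ = 1 := MonoidHom.mem_ker.1 (h hσ)
    rw [MonoidHom.mem_ker]
    apply Multiplicative.toAdd.injective
    rw [nbh_apply hβ, h2, hom_one hβ, neg_zero, toAdd_one]
  · intro v hv hvT
    apply Multiplicative.toAdd.injective
    rw [nbh_apply hβ, hφ.2 v hv hvT, hom_one hβ, neg_zero, toAdd_one]

theorem hs2_nbh [Finite H] (hk : 0 < k) (hp : p.Prime) (hζ : IsPrimitiveRoot ζ p)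
    (hH : ∀ x : H, x ^ p ^ k = 1) {D : RD0 K p ζ} (L : LDs D Ω) {T : Finset (Pl K)}
    {φ' : Gal(Ω/K) →* H} (hφ : Unz L T φ') {β : H → ZMod p}
    (hβ : ∀ x y, β (x * y) = β x + β y) :
    φ'.prod (nbh β φ') ∈ HS2 L (H × Multiplicative (ZMod p)) T := by
  have hn : NeZero p := ⟨hp.ne_zero⟩
  have hH' : ∀ x : H × Multiplicative (ZMod p), x ^ p ^ k = 1 := fun x =>
    Prod.ext (hH x.1) (mz_powk hk x.2)
  obtain ⟨h1, h2⟩ := nbh_unz L hφ hβ
  rw [mem_hs2 hp hζ L hH' T]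
  exact ⟨ft_prod hφ.1 h1, fun v hv hvT => Prod.ext (hφ.2 v hv hvT) (h2 v hv hvT)⟩

end H4.A2
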